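import Pool.Agent.Helper55.CF.Goals

open MeasureTheory Complex Filter Topology
open scoped ContDiff ComplexConjugate

noncomputable section
namespace Pool.Agent.Helper8.CF

open CF55

/-! ### the Gaussian integral -/

/-- regularised Gaussian integral -/
def Gs (α β : ℂ) (ε : ℝ) : ℂ :=
  ∫ x : ℂ, cexp (I * ((α * x ^ 2 + 2 * β * x).re : ℂ) - ε * ‖x‖ ^ 2)

theorem expo (p r D : ℝ) :
    cexp (-((p : ℂ) + I * (r : ℂ)) / (D : ℂ)) =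
      cexp (((-(p / D) : ℝ) : ℂ)) * cexp (((-(r / D) : ℝ) : ℂ) * I) := by
  rw [← Complex.exp_add]
  congr 1
  push_cast
  ring

theorem Gs_bound (hG : G_GAUSS) (α β : ℂ) (hα : α ≠ 0) (ε : ℝ) (hε : 0 < ε) :
    ‖Gs α β ε‖ ≤ Real.pi / ‖α‖ := by
  have h := (hG α β ε hε).2
  unfold Gs
  rw [h, norm_mul, expo, norm_mul, Complex.norm_exp_ofReal_mul_I, mul_one, Complex.norm_exp,
    Complex.ofReal_re, Complex.norm_real]
  have hα' : 0 < ‖α‖ := norm_pos_iff.2 hα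
  have h1 : ‖α‖ ≤ Real.sqrt (ε ^ 2 + ‖α‖ ^ 2) := by
    apply Real.le_sqrt_of_sq_le
    nlinarith [sq_nonneg ε]
  have h2 : Real.exp (-(ε * ‖β‖ ^ 2 / (ε ^ 2 + ‖α‖ ^ 2))) ≤ 1 := by
    rw [Real.exp_le_one_iff]
    have : 0 ≤ ε * ‖β‖ ^ 2 / (ε ^ 2 + ‖α‖ ^ 2) := by positivity
    linarith
  have h3 : ‖Real.pi / Real.sqrt (ε ^ 2 + ‖α‖ ^ 2)‖ ≤ Real.pi / ‖α‖ := by
    rw [Real.norm_of_nonneg (by positivity)]
    exact div_le_div_of_nonneg_left Real.pi_pos.le hα' h1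
  calc _ ≤ Real.pi / ‖α‖ * 1 := mul_le_mul h3 h2 (Real.exp_pos _).le (by positivity)
    _ = _ := mul_one _

theorem Gs_lim (hG : G_GAUSS) (α β : ℂ) (hα : α ≠ 0) :
    Tendsto (fun ε => Gs α β ε) (𝓝[>] 0)
      (𝓝 ((Real.pi / ‖α‖ : ℝ) * cexp (-(I * ((β ^ 2 / α).re : ℂ))))) := by
  have hα' : 0 < ‖α‖ := norm_pos_iff.2 hα
  have h1 : ∀ᶠ ε in 𝓝[>] (0 : ℝ), (Real.pi / Real.sqrt (ε ^ 2 + ‖α‖ ^ 2) : ℝ) *
      cexp (-((ε * ‖β‖ ^ 2 : ℝ) + I * ((conj α * β ^ 2).re : ℂ)) / ((ε ^ 2 + ‖α‖ ^ 2 : ℝ) : ℂ)) =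
      Gs α β ε := by
    filter_upwards [self_mem_nhdsWithin] with ε hε
    exact ((hG α β ε hε).2).symm
  apply Tendsto.congr' h1
  have h2 : ContinuousAt (fun ε : ℝ => ((Real.pi / Real.sqrt (ε ^ 2 + ‖α‖ ^ 2) : ℝ) : ℂ) *
      cexp (-((ε * ‖β‖ ^ 2 : ℝ) + I * ((conj α * β ^ 2).re : ℂ)) / ((ε ^ 2 + ‖α‖ ^ 2 : ℝ) : ℂ)))
      0 := by
    apply ContinuousAt.mul
    · apply Complex.continuous_ofReal.continuousAt.comp
      apply ContinuousAt.div continuousAt_const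
      · fun_prop
      · have : 0 < Real.sqrt (0 ^ 2 + ‖α‖ ^ 2) := Real.sqrt_pos.2 (by positivity)
        exact this.ne'
    · apply Complex.continuous_exp.continuousAt.comp
      apply ContinuousAt.div
      · fun_prop
      · fun_prop
      · have : (0 : ℝ) < 0 ^ 2 + ‖α‖ ^ 2 := by positivity
        exact_mod_cast this.ne'
  have h3 := h2.tendsto.mono_left (nhdsWithin_le_nhds (s := Set.Ioi (0 : ℝ)))
  convert h3 using 2
  simp only [ne_eq, OfNat.ofNat_ne_zero, not_false_eq_true, zero_pow, zero_add, zero_mul,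
    Real.sqrt_sq hα'.le, Complex.ofReal_zero]
  congr 2
  rw [neg_div]
  congr 1
  rw [mul_div_assoc]
  congr 1
  rw [← Complex.ofReal_div]
  congr 1
  have h4 : conj α * β ^ 2 = ((‖α‖ ^ 2 : ℝ) : ℂ) * (β ^ 2 / α) := by
    have h5 : ((‖α‖ ^ 2 : ℝ) : ℂ) = conj α * α := by
      rw [mul_comm, Complex.mul_conj]
      simp [Complex.normSq_eq_norm_sq]
    rw [h5]
    field_simp
  rw [h4, Complex.re_ofReal_mul]
  field_simp

/-! ### null sets -/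

theorem ae_ne (i : Fin 3) : ∀ᵐ z : Z, z i ≠ 0 :=
  Measure.ae_eval_ne (μ := fun _ : Fin 3 => (volume : Measure ℂ)) i 0

theorem ae_det (κ : ℂ) : ∀ᵐ z : Z, z 0 * z 1 - (κ * z 2) ^ 2 ≠ 0 := by
  have hmp := volume_preserving_piFinSuccAbove (fun _ : Fin 3 => ℂ) 0
  have hS : MeasurableSet {z : Z | z 1 ≠ 0 ∧ z 0 * z 1 - (κ * z 2) ^ 2 = 0} := by
    apply MeasurableSet.inter
    · exact (measurableSet_singleton (0 : ℂ)).compl.preimage (measurable_pi_apply 1)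
    · exact (measurableSet_singleton (0 : ℂ)).preimage (by fun_prop)
  have h0 : volume {z : Z | z 1 ≠ 0 ∧ z 0 * z 1 - (κ * z 2) ^ 2 = 0} = 0 := by
    rw [← hmp.symm.measure_preimage hS.nullMeasurableSet]
    have hT : MeasurableSet ((MeasurableEquiv.piFinSuccAbove (fun _ : Fin 3 => ℂ) 0).symm ⁻¹'
        {z : Z | z 1 ≠ 0 ∧ z 0 * z 1 - (κ * z 2) ^ 2 = 0}) :=
      hS.preimage (MeasurableEquiv.measurable _)
    have hT2 := hT.preimage (measurable_swap : Measurable (Prod.swap : (Fin 2 → ℂ) × ℂ → _))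
    change (Measure.prod (volume : Measure ℂ) (volume : Measure (Fin 2 → ℂ))) _ = 0
    rw [← (Measure.measurePreserving_swap (μ := (volume : Measure (Fin 2 → ℂ)))
      (ν := (volume : Measure ℂ))).measure_preimage hT.nullMeasurableSet]
    rw [Measure.measure_prod_null hT2]
    apply Eventually.of_forall
    intro w
    simp only [Pi.zero_apply]
    apply Set.Subsingleton.measure_zero
    intro a ha b hb
    simp only [Set.mem_preimage, Set.mem_ofPred_eq, Prod.swap_prod_mk] at ha hb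
    have e0 : ∀ c : ℂ, (MeasurableEquiv.piFinSuccAbove (fun _ : Fin 3 => ℂ) 0).symm (c, w) 0 = c :=
      fun c => rfl
    have e1 : ∀ c : ℂ, (MeasurableEquiv.piFinSuccAbove (fun _ : Fin 3 => ℂ) 0).symm (c, w) 1 =
      w 0 := fun c => rfl
    have e2 : ∀ c : ℂ, (MeasurableEquiv.piFinSuccAbove (fun _ : Fin 3 => ℂ) 0).symm (c, w) 2 =
      w 1 := fun c => rfl
    rw [e0, e1, e2] at ha hb
    have h5 : a * w 0 = b * w 0 := by linear_combination ha.2 - hb.2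
    exact mul_right_cancel₀ ha.1 h5
  filter_upwards [ae_ne 1, compl_mem_ae_iff.2 h0] with z hz1 hz2 hz3
  exact hz2 ⟨hz1, hz3⟩

/-! ### basic functions -/

theorem norm_ph (w : ℂ) : ‖cexp (I * (w.re : ℂ))‖ = 1 := by
  rw [mul_comm, Complex.norm_exp_ofReal_mul_I]

/-- the phase -/
def Ph (κ : ℂ) (N₁ N₂ C : Z → ℂ) (σ x y : ℂ) (z : Z) : ℂ :=
  cexp (I * ((σ * gg5 κ N₁ N₂ C x y z).re : ℂ))

theorem norm_Ph (κ : ℂ) (N₁ N₂ C : Z → ℂ) (σ x y : ℂ) (z : Z) :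
    ‖Ph κ N₁ N₂ C σ x y z‖ = 1 := norm_ph _

theorem continuous_Ph (κ : ℂ) {N₁ N₂ C : Z → ℂ} (h1 : Continuous N₁) (h2 : Continuous N₂)
    (h3 : Continuous C) (σ : ℂ) :
    Continuous fun q : (ℂ × ℂ) × Z => Ph κ N₁ N₂ C σ q.1.1 q.1.2 q.2 := by
  unfold Ph gg5
  fun_prop

/-- Gaussian cut-off -/
def EE (a : ℝ) (x : ℂ) : ℝ := Real.exp (-(a * ‖x‖ ^ 2))

theorem EE_pos (a : ℝ) (x : ℂ) : 0 < EE a x := Real.exp_pos _

theorem EE_le_one (a : ℝ) (ha : 0 < a) (x : ℂ) : EE a x ≤ 1 := by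
  unfold EE
  rw [Real.exp_le_one_iff]
  have : 0 ≤ a * ‖x‖ ^ 2 := by positivity
  linarith

theorem continuous_EE (a : ℝ) : Continuous (EE a) := by
  unfold EE
  fun_prop

theorem EE_integrable (hG : G_GAUSS) (a : ℝ) (ha : 0 < a) : Integrable (EE a) := by
  have h := (hG 0 0 a ha).1.norm
  refine h.congr (Eventually.of_forall fun x => ?_)
  have : (I * (((0 : ℂ) * x ^ 2 + 2 * 0 * x).re : ℂ) - (a : ℂ) * (‖x‖ : ℂ) ^ 2) =
      ((-(a * ‖x‖ ^ 2) : ℝ) : ℂ) := by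
    push_cast; simp
  simp only [this]
  rw [Complex.norm_exp, Complex.ofReal_re]
  rfl

theorem F_integrable (hG : G_GAUSS) (κ : ℂ) {N₁ N₂ C : Z → ℂ} (h1 : Continuous N₁)
    (h2 : Continuous N₂) (h3 : Continuous C) (σ : ℂ) (a b : ℝ) (ha : 0 < a) (hb : 0 < b)
    (φ : Z → ℝ) (hφ : Continuous φ) (hφi : Integrable φ) :
    Integrable (fun q : (ℂ × ℂ) × Z => Ph κ N₁ N₂ C σ q.1.1 q.1.2 q.2 *
      ((EE a q.1.1 * EE b q.1.2 * φ q.2 : ℝ) : ℂ)) := by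
  have h := (((EE_integrable hG a ha).mul_prod (EE_integrable hG b hb)).mul_prod hφi)
  refine Integrable.mono h ?_ (Eventually.of_forall fun q => ?_)
  · apply Continuous.aestronglyMeasurable
    have c1 := continuous_Ph κ h1 h2 h3 σ
    have c2 := continuous_EE a
    have c3 := continuous_EE b
    fun_prop
  · rw [norm_mul, norm_Ph, one_mul, Complex.norm_real]

/-- the inner double integral -/
def Q (κ : ℂ) (N₁ N₂ C : Z → ℂ) (σ : ℂ) (a b : ℝ) (z : Z) : ℂ :=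
  ∫ x : ℂ, ∫ y : ℂ, Ph κ N₁ N₂ C σ x y z * ((EE a x * EE b y : ℝ) : ℂ)

/-- the integral over `z` -/
def U (κ : ℂ) (N₁ N₂ C : Z → ℂ) (σ : ℂ) (φ : Z → ℝ) (w : ℂ × ℂ) : ℂ :=
  ∫ z : Z, Ph κ N₁ N₂ C σ w.1 w.2 z * φ z

theorem hw_int (hG : G_GAUSS) (κ : ℂ) (N₁ N₂ C : Z → ℂ)
    (σ : ℂ) (a b : ℝ) (ha : 0 < a) (hb : 0 < b) (z : Z) :
    Integrable (fun w : ℂ × ℂ => Ph κ N₁ N₂ C σ w.1 w.2 z *
      ((EE a w.1 * EE b w.2 : ℝ) : ℂ)) := by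
  have c1 : Continuous (fun w : ℂ × ℂ => Ph κ N₁ N₂ C σ w.1 w.2 z) := by
    unfold Ph gg5
    fun_prop
  have c2 : Continuous (fun w : ℂ × ℂ => ((EE a w.1 * EE b w.2 : ℝ) : ℂ)) := by
    unfold EE
    fun_prop
  refine Integrable.mono ((EE_integrable hG a ha).mul_prod (EE_integrable hG b hb))
    (c1.mul c2).aestronglyMeasurable (Eventually.of_forall fun q => ?_)
  rw [norm_mul, norm_Ph, one_mul, Complex.norm_real]

theorem Q_prod (hG : G_GAUSS) (κ : ℂ) (N₁ N₂ C : Z → ℂ)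
    (σ : ℂ) (a b : ℝ) (ha : 0 < a) (hb : 0 < b) (z : Z) :
    Q κ N₁ N₂ C σ a b z =
      ∫ w : ℂ × ℂ, Ph κ N₁ N₂ C σ w.1 w.2 z * ((EE a w.1 * EE b w.2 : ℝ) : ℂ) :=
  (integral_prod _ (hw_int hG κ N₁ N₂ C σ a b ha hb z)).symm

theorem Q_eq (hG : G_GAUSS) (κ : ℂ) {N₁ N₂ C : Z → ℂ} (h1 : Continuous N₁)
    (h2 : Continuous N₂) (h3 : Continuous C) (σ : ℂ) (a b : ℝ) (ha : 0 < a) (hb : 0 < b)
    (φ : Z → ℝ) (hφ : Continuous φ) (hφi : Integrable φ) :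
    ∫ z, (φ z : ℂ) * Q κ N₁ N₂ C σ a b z =
      ∫ w : ℂ × ℂ, U κ N₁ N₂ C σ φ w * ((EE a w.1 * EE b w.2 : ℝ) : ℂ) := by
  have hF := F_integrable hG κ h1 h2 h3 σ a b ha hb φ hφ hφi
  have e1 : ∀ w : ℂ × ℂ, U κ N₁ N₂ C σ φ w * ((EE a w.1 * EE b w.2 : ℝ) : ℂ) =
      ∫ z, Ph κ N₁ N₂ C σ w.1 w.2 z * ((EE a w.1 * EE b w.2 * φ z : ℝ) : ℂ) := by
    intro w
    unfold U
    rw [← integral_mul_const]
    apply integral_congr_ae
    filter_upwards with z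
    push_cast
    ring
  have e2 : ∀ z : Z, (φ z : ℂ) * Q κ N₁ N₂ C σ a b z =
      ∫ w : ℂ × ℂ, Ph κ N₁ N₂ C σ w.1 w.2 z * ((EE a w.1 * EE b w.2 * φ z : ℝ) : ℂ) := by
    intro z
    rw [Q_prod hG κ N₁ N₂ C σ a b ha hb z, ← integral_const_mul]
    apply integral_congr_ae
    filter_upwards with w
    push_cast
    ring
  simp_rw [e1, e2]
  exact (integral_integral_swap hF).symm

/-! ### comparison with the Gaussian cut-off -/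

/-- integrable majorant -/
def HH (x : ℂ) : ℝ := (1 + ‖x‖) ^ (-(4 : ℝ))

theorem HH_integrable : Integrable HH := by
  apply integrable_one_add_norm
  rw [Complex.finrank_real_complex]
  norm_num

theorem HH_eq (x : ℂ) : HH x = 1 / (1 + ‖x‖) ^ 4 := by
  unfold HH
  rw [Real.rpow_neg (by positivity), one_div]
  congr 1
  exact_mod_cast Real.rpow_natCast (1 + ‖x‖) 4

theorem U_bound (κ : ℂ) (N₁ N₂ C : Z → ℂ) (σ : ℂ) (φ : Z → ℝ) (w : ℂ × ℂ) :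
    ‖U κ N₁ N₂ C σ φ w‖ ≤ ∫ z, |φ z| := by
  unfold U
  refine (norm_integral_le_integral_norm _).trans (le_of_eq ?_)
  apply integral_congr_ae
  filter_upwards with z
  rw [norm_mul, norm_Ph, one_mul, Complex.norm_real, Real.norm_eq_abs]

theorem U_meas (κ : ℂ) {N₁ N₂ C : Z → ℂ} (h1 : Continuous N₁) (h2 : Continuous N₂)
    (h3 : Continuous C) (σ : ℂ) (φ : Z → ℝ) (hφ : Continuous φ) :
    StronglyMeasurable (U κ N₁ N₂ C σ φ) := by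
  have c1 : Continuous (fun q : (ℂ × ℂ) × Z => Ph κ N₁ N₂ C σ q.1.1 q.1.2 q.2 * (φ q.2 : ℂ)) :=
    (continuous_Ph κ h1 h2 h3 σ).mul
      (Complex.continuous_ofReal.comp (hφ.comp continuous_snd))
  exact c1.stronglyMeasurable.integral_prod_right' (ν := (volume : Measure Z))

theorem A_bound (hG : G_GAUSS) (κ : ℂ) {N₁ N₂ C : Z → ℂ} (h1 : Continuous N₁)
    (h2 : Continuous N₂) (h3 : Continuous C) (σ : ℂ) (a b : ℝ) (ha : 0 < a) (hb : 0 < b)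
    (φ : Z → ℝ) (hφ : Continuous φ) (hφi : Integrable φ) (χ : ℂ → ℝ) (hχc : Continuous χ)
    (hχs : HasCompactSupport χ) (hχ01 : ∀ y, 0 ≤ χ y ∧ χ y ≤ 1) (ε₀ : ℝ) (hε₀ : 0 < ε₀)
    (hχ1 : ∀ y, ‖y‖ ≤ ε₀ → χ y = 1) (K : ℝ) (hK0 : 0 ≤ K)
    (hK : ∀ w : ℂ × ℂ, ε₀ ≤ max ‖w.1‖ ‖w.2‖ →
      ‖U κ N₁ N₂ C σ φ w‖ ≤ K / (max ‖w.1‖ ‖w.2‖) ^ 8) :
    ‖(∫ x : ℂ, ∫ y : ℂ, ∫ z : Z, Ph κ N₁ N₂ C σ x y z * ((χ x * χ y * φ z : ℝ) : ℂ)) -
      ∫ z, (φ z : ℂ) * Q κ N₁ N₂ C σ a b z‖ ≤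
      ((a + b) * (ε₀ ^ 2 * (∫ z, |φ z|) * (1 + ε₀) ^ 8) + K * (1 / ε₀ + 1) ^ 8) *
        (∫ x, HH x) ^ 2 := by
  have hχi : Integrable χ := hχc.integrable_of_hasCompactSupport hχs
  have hL0 : 0 ≤ ∫ z, |φ z| := integral_nonneg fun z => abs_nonneg _
  have hUm := (U_meas κ h1 h2 h3 σ φ hφ).aestronglyMeasurable (μ := (volume : Measure (ℂ × ℂ)))
  have int1 : Integrable (fun w : ℂ × ℂ => U κ N₁ N₂ C σ φ w * ((χ w.1 * χ w.2 : ℝ) : ℂ)) := by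
    apply Integrable.bdd_mul (c := ∫ z, |φ z|) (hχi.mul_prod hχi).ofReal hUm
    exact Eventually.of_forall fun w => U_bound κ N₁ N₂ C σ φ w
  have int2 : Integrable (fun w : ℂ × ℂ => U κ N₁ N₂ C σ φ w *
      ((EE a w.1 * EE b w.2 : ℝ) : ℂ)) := by
    apply Integrable.bdd_mul (c := ∫ z, |φ z|)
      ((EE_integrable hG a ha).mul_prod (EE_integrable hG b hb)).ofReal hUm
    exact Eventually.of_forall fun w => U_bound κ N₁ N₂ C σ φ w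
  have e1 : (∫ x : ℂ, ∫ y : ℂ, ∫ z : Z, Ph κ N₁ N₂ C σ x y z * ((χ x * χ y * φ z : ℝ) : ℂ)) =
      ∫ w : ℂ × ℂ, U κ N₁ N₂ C σ φ w * ((χ w.1 * χ w.2 : ℝ) : ℂ) := by
    have e3 : (∫ w : ℂ × ℂ, U κ N₁ N₂ C σ φ w * ((χ w.1 * χ w.2 : ℝ) : ℂ)) =
      ∫ x : ℂ, ∫ y : ℂ, U κ N₁ N₂ C σ φ (x, y) * ((χ x * χ y : ℝ) : ℂ) := integral_prod _ int1
    rw [e3]
    congr 1
    ext x
    congr 1
    ext y
    unfold U
    rw [← integral_mul_const]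
    apply integral_congr_ae
    filter_upwards with z
    push_cast
    ring
  rw [e1, Q_eq hG κ h1 h2 h3 σ a b ha hb φ hφ hφi, ← integral_sub int1 int2]
  set c₁ := (a + b) * (ε₀ ^ 2 * (∫ z, |φ z|) * (1 + ε₀) ^ 8) with hc₁
  set c₂ := K * (1 / ε₀ + 1) ^ 8 with hc₂
  have hc₁0 : 0 ≤ c₁ := by positivity
  have hc₂0 : 0 ≤ c₂ := by positivity
  have e4 : (c₁ + c₂) * (∫ x, HH x) ^ 2 = ∫ w : ℂ × ℂ, (c₁ + c₂) * (HH w.1 * HH w.2) := by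
    rw [integral_const_mul]
    congr 1
    rw [sq]
    exact (integral_prod_mul HH HH).symm
  rw [e4]
  apply norm_integral_le_of_norm_le ((HH_integrable.mul_prod HH_integrable).const_mul _)
  refine Eventually.of_forall fun w => ?_
  obtain ⟨x, y⟩ := w
  have hHpos : 0 < HH x * HH y := by
    rw [HH_eq, HH_eq]; positivity
  have e5 : U κ N₁ N₂ C σ φ (x, y) * ((χ x * χ y : ℝ) : ℂ) -
      U κ N₁ N₂ C σ φ (x, y) * ((EE a x * EE b y : ℝ) : ℂ) =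
      U κ N₁ N₂ C σ φ (x, y) * ((χ x * χ y - EE a x * EE b y : ℝ) : ℂ) := by
    push_cast; ring
  simp only []
  rw [e5, norm_mul, Complex.norm_real, Real.norm_eq_abs]
  rcases le_total (max ‖x‖ ‖y‖) ε₀ with hm | hm
  · have hx : ‖x‖ ≤ ε₀ := (le_max_left _ _).trans hm
    have hy : ‖y‖ ≤ ε₀ := (le_max_right _ _).trans hm
    have h5 : |χ x * χ y - EE a x * EE b y| ≤ (a + b) * ε₀ ^ 2 := by
      rw [hχ1 x hx, hχ1 y hy, mul_one]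
      unfold EE
      rw [← Real.exp_add]
      have h6 := Real.add_one_le_exp (-(a * ‖x‖ ^ 2) + -(b * ‖y‖ ^ 2))
      have h7 : a * ‖x‖ ^ 2 ≤ a * ε₀ ^ 2 :=
        mul_le_mul_of_nonneg_left (pow_le_pow_left₀ (norm_nonneg _) hx 2) ha.le
      have h8 : b * ‖y‖ ^ 2 ≤ b * ε₀ ^ 2 :=
        mul_le_mul_of_nonneg_left (pow_le_pow_left₀ (norm_nonneg _) hy 2) hb.le
      have h9 : Real.exp (-(a * ‖x‖ ^ 2) + -(b * ‖y‖ ^ 2)) ≤ 1 := by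
        rw [Real.exp_le_one_iff]
        have : 0 ≤ a * ‖x‖ ^ 2 := by positivity
        have : 0 ≤ b * ‖y‖ ^ 2 := by positivity
        linarith
      rw [abs_of_nonneg (by linarith)]
      linarith
    have h10 : 1 ≤ (1 + ε₀) ^ 8 * (HH x * HH y) := by
      rw [HH_eq, HH_eq]
      have h11 : (1 + ‖x‖) ^ 4 ≤ (1 + ε₀) ^ 4 := pow_le_pow_left₀ (by positivity) (by linarith) 4
      have h12 : (1 + ‖y‖) ^ 4 ≤ (1 + ε₀) ^ 4 := pow_le_pow_left₀ (by positivity) (by linarith) 4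
      have h13 : (1 + ‖x‖) ^ 4 * (1 + ‖y‖) ^ 4 ≤ (1 + ε₀) ^ 8 := by
        calc _ ≤ (1 + ε₀) ^ 4 * (1 + ε₀) ^ 4 := mul_le_mul h11 h12 (by positivity) (by positivity)
          _ = _ := by ring
      rw [div_mul_div_comm, one_mul, ← mul_div_assoc, mul_one, le_div_iff₀ (by positivity), one_mul]
      exact h13
    calc ‖U κ N₁ N₂ C σ φ (x, y)‖ * |χ x * χ y - EE a x * EE b y|
        ≤ (∫ z, |φ z|) * ((a + b) * ε₀ ^ 2) :=
          mul_le_mul (U_bound κ N₁ N₂ C σ φ (x, y)) h5 (abs_nonneg _) hL0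
      _ = (a + b) * (ε₀ ^ 2 * (∫ z, |φ z|)) * 1 := by ring
      _ ≤ (a + b) * (ε₀ ^ 2 * (∫ z, |φ z|)) * ((1 + ε₀) ^ 8 * (HH x * HH y)) :=
          mul_le_mul_of_nonneg_left h10 (by positivity)
      _ = c₁ * (HH x * HH y) := by rw [hc₁]; ring
      _ ≤ (c₁ + c₂) * (HH x * HH y) := by
          apply mul_le_mul_of_nonneg_right _ hHpos.le
          linarith
  · have hmpos : 0 < max ‖x‖ ‖y‖ := lt_of_lt_of_le hε₀ hm
    have h5 : |χ x * χ y - EE a x * EE b y| ≤ 1 := by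
      have h6 : 0 ≤ χ x * χ y := mul_nonneg (hχ01 x).1 (hχ01 y).1
      have h7 : χ x * χ y ≤ 1 := mul_le_one₀ (hχ01 x).2 (hχ01 y).1 (hχ01 y).2
      have h8 : 0 ≤ EE a x * EE b y := mul_nonneg (EE_pos a x).le (EE_pos b y).le
      have h9 : EE a x * EE b y ≤ 1 :=
        mul_le_one₀ (EE_le_one a ha x) (EE_pos b y).le (EE_le_one b hb y)
      rw [abs_le]
      constructor <;> linarith
    have h10 := hK (x, y) hm
    simp only [] at h10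
    have h11 : 1 / (max ‖x‖ ‖y‖) ^ 8 ≤ (1 / ε₀ + 1) ^ 8 * (HH x * HH y) := by
      rw [HH_eq, HH_eq]
      have h12 : 1 ≤ 1 / ε₀ * max ‖x‖ ‖y‖ := by
        rw [one_div, ← div_eq_inv_mul, le_div_iff₀ hε₀, one_mul]
        exact hm
      have h13 : 1 + ‖x‖ ≤ (1 / ε₀ + 1) * max ‖x‖ ‖y‖ := by
        have := le_max_left ‖x‖ ‖y‖
        linarith
      have h14 : 1 + ‖y‖ ≤ (1 / ε₀ + 1) * max ‖x‖ ‖y‖ := by
        have := le_max_right ‖x‖ ‖y‖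
        linarith
      have h15 : (1 + ‖x‖) ^ 4 ≤ ((1 / ε₀ + 1) * max ‖x‖ ‖y‖) ^ 4 :=
        pow_le_pow_left₀ (by positivity) h13 4
      have h16 : (1 + ‖y‖) ^ 4 ≤ ((1 / ε₀ + 1) * max ‖x‖ ‖y‖) ^ 4 :=
        pow_le_pow_left₀ (by positivity) h14 4
      have h17 : (1 + ‖x‖) ^ 4 * (1 + ‖y‖) ^ 4 ≤ (1 / ε₀ + 1) ^ 8 * (max ‖x‖ ‖y‖) ^ 8 := by
        calc _ ≤ ((1 / ε₀ + 1) * max ‖x‖ ‖y‖) ^ 4 * ((1 / ε₀ + 1) * max ‖x‖ ‖y‖) ^ 4 :=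
              mul_le_mul h15 h16 (by positivity) (by positivity)
          _ = _ := by ring
      rw [div_mul_div_comm, one_mul, ← mul_div_assoc, mul_one, div_le_div_iff₀ (by positivity)
        (by positivity), one_mul]
      exact h17
    calc ‖U κ N₁ N₂ C σ φ (x, y)‖ * |χ x * χ y - EE a x * EE b y|
        ≤ (K / (max ‖x‖ ‖y‖) ^ 8) * 1 := mul_le_mul h10 h5 (abs_nonneg _) (by positivity)
      _ = K * (1 / (max ‖x‖ ‖y‖) ^ 8) := by ring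
      _ ≤ K * ((1 / ε₀ + 1) ^ 8 * (HH x * HH y)) := mul_le_mul_of_nonneg_left h11 hK0
      _ = c₂ * (HH x * HH y) := by rw [hc₂]; ring
      _ ≤ (c₁ + c₂) * (HH x * HH y) := by
          apply mul_le_mul_of_nonneg_right _ hHpos.le
          linarith

/-! ### limits -/

/-- the factor of the phase depending on `x` only -/
def P0 (N₁ C : Z → ℂ) (σ x : ℂ) (z : Z) : ℂ :=
  cexp (I * ((σ * (z 0 * x ^ 2 + 2 * N₁ z * x + C z)).re : ℂ))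

theorem norm_P0 (N₁ C : Z → ℂ) (σ x : ℂ) (z : Z) : ‖P0 N₁ C σ x z‖ = 1 := norm_ph _

theorem inner_eq (κ : ℂ) (N₁ N₂ C : Z → ℂ) (σ : ℂ) (a b : ℝ) (x : ℂ) (z : Z) :
    (∫ y : ℂ, Ph κ N₁ N₂ C σ x y z * ((EE a x * EE b y : ℝ) : ℂ)) =
      (EE a x : ℂ) * P0 N₁ C σ x z * Gs (σ * z 1) (σ * (κ * z 2 * x + N₂ z)) b := by
  unfold Gs
  rw [← integral_const_mul]
  congr 1
  ext y
  unfold Ph P0 EE gg5
  push_cast
  rw [← Complex.exp_add, ← Complex.exp_add, ← Complex.exp_add, ← Complex.exp_add]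
  congr 1
  have h : (σ * (z 0 * x ^ 2 + 2 * κ * z 2 * x * y + z 1 * y ^ 2 + 2 * N₁ z * x +
      2 * N₂ z * y + C z)).re =
      (σ * (z 0 * x ^ 2 + 2 * N₁ z * x + C z)).re +
      (σ * z 1 * y ^ 2 + 2 * (σ * (κ * z 2 * x + N₂ z)) * y).re := by
    rw [← Complex.add_re]
    congr 1
    ring
  rw [h]
  push_cast
  ring

theorem Q_inner (κ : ℂ) (N₁ N₂ C : Z → ℂ) (σ : ℂ) (a b : ℝ) (z : Z) :
    Q κ N₁ N₂ C σ a b z =
      ∫ x : ℂ, (EE a x : ℂ) * P0 N₁ C σ x z * Gs (σ * z 1) (σ * (κ * z 2 * x + N₂ z)) b := by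
  unfold Q
  congr 1
  ext x
  exact inner_eq κ N₁ N₂ C σ a b x z

theorem inner_bound (hG : G_GAUSS) (κ : ℂ) (N₁ N₂ C : Z → ℂ) (σ : ℂ) (a b : ℝ) (hb : 0 < b)
    (x : ℂ) (z : Z) (hz : σ * z 1 ≠ 0) :
    ‖(EE a x : ℂ) * P0 N₁ C σ x z * Gs (σ * z 1) (σ * (κ * z 2 * x + N₂ z)) b‖ ≤
      EE a x * (Real.pi / ‖σ * z 1‖) := by
  rw [norm_mul, norm_mul, norm_P0, mul_one, Complex.norm_real, Real.norm_of_nonneg (EE_pos a x).le]
  exact mul_le_mul_of_nonneg_left (Gs_bound hG _ _ hz b hb) (EE_pos a x).le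

theorem Q_bound (hG : G_GAUSS) (κ : ℂ) (N₁ N₂ C : Z → ℂ) (σ : ℂ) (a b : ℝ) (ha : 0 < a)
    (hb : 0 < b) (z : Z) (hz : σ * z 1 ≠ 0) :
    ‖Q κ N₁ N₂ C σ a b z‖ ≤ (∫ x, EE a x) * (Real.pi / ‖σ * z 1‖) := by
  rw [Q_inner, ← integral_mul_const]
  apply norm_integral_le_of_norm_le ((EE_integrable hG a ha).mul_const _)
  exact Eventually.of_forall fun x => inner_bound hG κ N₁ N₂ C σ a b hb x z hz

/-- the limit of `Q` as `b` tends to zero -/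
def R (κ : ℂ) (N₁ N₂ C : Z → ℂ) (σ : ℂ) (a : ℝ) (z : Z) : ℂ :=
  ∫ x : ℂ, (EE a x : ℂ) * P0 N₁ C σ x z * ((Real.pi / ‖σ * z 1‖ : ℝ) *
    cexp (-(I * (((σ * (κ * z 2 * x + N₂ z)) ^ 2 / (σ * z 1)).re : ℂ))))

theorem Q_lim (hG : G_GAUSS) (κ : ℂ) (N₁ N₂ C : Z → ℂ) (σ : ℂ) (a : ℝ) (ha : 0 < a) (z : Z)
    (hz : σ * z 1 ≠ 0) :
    Tendsto (fun b => Q κ N₁ N₂ C σ a b z) (𝓝[>] 0) (𝓝 (R κ N₁ N₂ C σ a z)) := by
  simp_rw [Q_inner]
  unfold R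
  apply tendsto_integral_filter_of_dominated_convergence
    (bound := fun x => EE a x * (Real.pi / ‖σ * z 1‖))
  · apply Eventually.of_forall
    intro b
    have c1 : Continuous (fun w : ℂ × ℂ => Ph κ N₁ N₂ C σ w.1 w.2 z *
        ((EE a w.1 * EE b w.2 : ℝ) : ℂ)) := by
      have c1 : Continuous (fun w : ℂ × ℂ => Ph κ N₁ N₂ C σ w.1 w.2 z) := by
        unfold Ph gg5
        fun_prop
      have c2 : Continuous (fun w : ℂ × ℂ => ((EE a w.1 * EE b w.2 : ℝ) : ℂ)) := by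
        unfold EE
        fun_prop
      exact c1.mul c2
    have := (c1.stronglyMeasurable.integral_prod_right' (ν := (volume : Measure ℂ)))
    simp only [] at this
    simp_rw [inner_eq] at this
    exact this.aestronglyMeasurable
  · filter_upwards [self_mem_nhdsWithin] with b hb
    exact Eventually.of_forall fun x => inner_bound hG κ N₁ N₂ C σ a b hb x z hz
  · exact (EE_integrable hG a ha).mul_const _
  · apply Eventually.of_forall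
    intro x
    apply Tendsto.const_mul
    exact Gs_lim hG _ _ hz

theorem R_eq (κ : ℂ) (N₁ N₂ C : Z → ℂ) (σ : ℂ) (a : ℝ) (z : Z) (hσ : σ ≠ 0) (hz : z 1 ≠ 0) :
    R κ N₁ N₂ C σ a z = (Real.pi / ‖σ * z 1‖ : ℝ) *
      cexp (I * ((σ * (C z - N₂ z ^ 2 / z 1)).re : ℂ)) *
      Gs (σ * (z 0 - (κ * z 2) ^ 2 / z 1)) (σ * (N₁ z - κ * z 2 * N₂ z / z 1)) a := by
  unfold R Gs
  rw [← integral_const_mul]
  congr 1
  ext x
  unfold P0 EE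
  have h : (σ * (z 0 * x ^ 2 + 2 * N₁ z * x + C z)).re -
      ((σ * (κ * z 2 * x + N₂ z)) ^ 2 / (σ * z 1)).re =
      (σ * (C z - N₂ z ^ 2 / z 1)).re + (σ * (z 0 - (κ * z 2) ^ 2 / z 1) * x ^ 2 +
        2 * (σ * (N₁ z - κ * z 2 * N₂ z / z 1)) * x).re := by
    rw [← Complex.sub_re, ← Complex.add_re]
    congr 1
    field_simp
    ring
  have h' : ((σ * (z 0 * x ^ 2 + 2 * N₁ z * x + C z)).re : ℂ) -
      (((σ * (κ * z 2 * x + N₂ z)) ^ 2 / (σ * z 1)).re : ℂ) =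
      ((σ * (C z - N₂ z ^ 2 / z 1)).re : ℂ) + ((σ * (z 0 - (κ * z 2) ^ 2 / z 1) * x ^ 2 +
        2 * (σ * (N₁ z - κ * z 2 * N₂ z / z 1)) * x).re : ℂ) := by exact_mod_cast h
  push_cast
  have e : ∀ (p q r s : ℂ), cexp p * cexp q * (s * cexp r) = s * cexp (p + q + r) := by
    intro p q r s
    rw [Complex.exp_add, Complex.exp_add]; ring
  have e' : ∀ (p q s : ℂ), s * cexp p * cexp q = s * cexp (p + q) := by
    intro p q s
    rw [Complex.exp_add]; ring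
  rw [e, e']
  congr 2
  linear_combination I * h'

theorem R_bound (hG : G_GAUSS) (κ : ℂ) (N₁ N₂ C : Z → ℂ) (σ : ℂ) (a : ℝ) (ha : 0 < a) (z : Z)
    (hσ : σ ≠ 0) (hz : z 1 ≠ 0) (hal : z 0 * z 1 - (κ * z 2) ^ 2 ≠ 0) :
    ‖R κ N₁ N₂ C σ a z‖ ≤ Real.pi ^ 2 / ‖σ‖ ^ 2 * (1 / ‖z 0 * z 1 - (κ * z 2) ^ 2‖) := by
  have h0 : z 0 * z 1 - (κ * z 2) ^ 2 = z 1 * (z 0 - (κ * z 2) ^ 2 / z 1) := by
    field_simp
  have hal' : z 0 - (κ * z 2) ^ 2 / z 1 ≠ 0 := by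
    intro h
    rw [h0, h, mul_zero] at hal
    exact hal rfl
  rw [R_eq κ N₁ N₂ C σ a z hσ hz, norm_mul, norm_mul, norm_ph, mul_one, Complex.norm_real,
    Real.norm_of_nonneg (by positivity)]
  have h1 := Gs_bound hG (σ * (z 0 - (κ * z 2) ^ 2 / z 1)) (σ * (N₁ z - κ * z 2 * N₂ z / z 1))
    (mul_ne_zero hσ hal') a ha
  calc _ ≤ Real.pi / ‖σ * z 1‖ * (Real.pi / ‖σ * (z 0 - (κ * z 2) ^ 2 / z 1)‖) :=
        mul_le_mul_of_nonneg_left h1 (by positivity)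
    _ = _ := by
        rw [h0, norm_mul, norm_mul, norm_mul]
        have : ‖σ‖ ≠ 0 := norm_ne_zero_iff.2 hσ
        have : ‖z 1‖ ≠ 0 := norm_ne_zero_iff.2 hz
        have : ‖z 0 - (κ * z 2) ^ 2 / z 1‖ ≠ 0 := norm_ne_zero_iff.2 hal'
        field_simp

theorem R_lim (hG : G_GAUSS) (κ : ℂ) (N₁ N₂ C : Z → ℂ) (σ : ℂ) (z : Z)
    (hσ : σ ≠ 0) (hz : z 1 ≠ 0) (hal : z 0 * z 1 - (κ * z 2) ^ 2 ≠ 0) :
    Tendsto (fun a => R κ N₁ N₂ C σ a z) (𝓝[>] 0)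
      (𝓝 ((Real.pi ^ 2 / ‖σ‖ ^ 2 : ℝ) * (cexp (I * ((σ * hh5 κ N₁ N₂ C z).re : ℂ)) *
        (1 / ‖z 0 * z 1 - (κ * z 2) ^ 2‖ : ℝ)))) := by
  have h0 : z 0 * z 1 - (κ * z 2) ^ 2 = z 1 * (z 0 - (κ * z 2) ^ 2 / z 1) := by
    field_simp
  have hal' : z 0 - (κ * z 2) ^ 2 / z 1 ≠ 0 := by
    intro h
    rw [h0, h, mul_zero] at hal
    exact hal rfl
  have h1 := (Gs_lim hG (σ * (z 0 - (κ * z 2) ^ 2 / z 1)) (σ * (N₁ z - κ * z 2 * N₂ z / z 1))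
    (mul_ne_zero hσ hal')).const_mul ((Real.pi / ‖σ * z 1‖ : ℝ) *
      cexp (I * ((σ * (C z - N₂ z ^ 2 / z 1)).re : ℂ)))
  have h2 : ∀ a : ℝ, R κ N₁ N₂ C σ a z = (Real.pi / ‖σ * z 1‖ : ℝ) *
      cexp (I * ((σ * (C z - N₂ z ^ 2 / z 1)).re : ℂ)) *
      Gs (σ * (z 0 - (κ * z 2) ^ 2 / z 1)) (σ * (N₁ z - κ * z 2 * N₂ z / z 1)) a :=
    fun a => R_eq κ N₁ N₂ C σ a z hσ hz
  simp_rw [h2]
  convert h1 using 2
  have e : ∀ (p q s t : ℂ), s * cexp p * (t * cexp q) = s * t * cexp (p + q) := by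
    intro p q s t
    rw [Complex.exp_add]; ring
  rw [e]
  have h3 : ((Real.pi / ‖σ * z 1‖ : ℝ) : ℂ) *
      ((Real.pi / ‖σ * (z 0 - (κ * z 2) ^ 2 / z 1)‖ : ℝ) : ℂ) =
      (Real.pi ^ 2 / ‖σ‖ ^ 2 : ℝ) * (1 / ‖z 0 * z 1 - (κ * z 2) ^ 2‖ : ℝ) := by
    rw [← Complex.ofReal_mul, ← Complex.ofReal_mul]
    congr 1
    rw [h0, norm_mul, norm_mul, norm_mul]
    have : ‖σ‖ ≠ 0 := norm_ne_zero_iff.2 hσ
    have : ‖z 1‖ ≠ 0 := norm_ne_zero_iff.2 hz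
    have : ‖z 0 - (κ * z 2) ^ 2 / z 1‖ ≠ 0 := norm_ne_zero_iff.2 hal'
    field_simp
  rw [h3]
  have h4 : ((σ * hh5 κ N₁ N₂ C z).re : ℂ) = ((σ * (C z - N₂ z ^ 2 / z 1)).re : ℂ) -
      (((σ * (N₁ z - κ * z 2 * N₂ z / z 1)) ^ 2 / (σ * (z 0 - (κ * z 2) ^ 2 / z 1))).re : ℂ) := by
    rw [← Complex.ofReal_sub, ← Complex.sub_re]
    congr 2
    unfold hh5
    have h5 : (σ * (N₁ z - κ * z 2 * N₂ z / z 1)) ^ 2 / (σ * (z 0 - (κ * z 2) ^ 2 / z 1)) =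
        σ * ((N₁ z - κ * z 2 * N₂ z / z 1) ^ 2 / (z 0 - (κ * z 2) ^ 2 / z 1)) := by
      rw [div_eq_iff (mul_ne_zero hσ hal')]
      rw [show σ * ((N₁ z - κ * z 2 * N₂ z / z 1) ^ 2 / (z 0 - (κ * z 2) ^ 2 / z 1)) *
        (σ * (z 0 - (κ * z 2) ^ 2 / z 1)) = σ ^ 2 *
        ((N₁ z - κ * z 2 * N₂ z / z 1) ^ 2 / (z 0 - (κ * z 2) ^ 2 / z 1) *
        (z 0 - (κ * z 2) ^ 2 / z 1)) by ring, div_mul_cancel₀ _ hal']
      ring
    rw [h5]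
    ring
  rw [h4]
  have h6 : I * (((σ * (C z - N₂ z ^ 2 / z 1)).re : ℂ) -
      (((σ * (N₁ z - κ * z 2 * N₂ z / z 1)) ^ 2 / (σ * (z 0 - (κ * z 2) ^ 2 / z 1))).re : ℂ)) =
      I * ((σ * (C z - N₂ z ^ 2 / z 1)).re : ℂ) + -(I *
      (((σ * (N₁ z - κ * z 2 * N₂ z / z 1)) ^ 2 / (σ * (z 0 - (κ * z 2) ^ 2 / z 1))).re : ℂ)) := by
    ring
  rw [h6]
  ring

/-! ### the theorem -/

theorem Q_meas (κ : ℂ) {N₁ N₂ C : Z → ℂ} (h1 : Continuous N₁) (h2 : Continuous N₂)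
    (h3 : Continuous C) (σ : ℂ) (a b : ℝ) : StronglyMeasurable (Q κ N₁ N₂ C σ a b) := by
  have c1 : Continuous (fun q : (Z × ℂ) × ℂ => Ph κ N₁ N₂ C σ q.1.2 q.2 q.1.1 *
      ((EE a q.1.2 * EE b q.2 : ℝ) : ℂ)) := by
    have c1 : Continuous (fun q : (Z × ℂ) × ℂ => Ph κ N₁ N₂ C σ q.1.2 q.2 q.1.1) := by
      unfold Ph gg5
      fun_prop
    have c2 : Continuous (fun q : (Z × ℂ) × ℂ => ((EE a q.1.2 * EE b q.2 : ℝ) : ℂ)) := by
      unfold EE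
      fun_prop
    exact c1.mul c2
  have h4 := (c1.stronglyMeasurable.integral_prod_right' (ν := (volume : Measure ℂ)))
  exact h4.integral_prod_right' (ν := (volume : Measure ℂ))

/-- local integrability of `1 / |z₁|` -/
theorem int_z1 (hI : G_INT5) (φ : Z → ℝ) (hφ : Continuous φ) (hφs : HasCompactSupport φ) :
    Integrable (fun z => |φ z| * (1 / ‖z 1‖)) := by
  obtain ⟨M, hM⟩ := hφs.isCompact.exists_bound_of_continuousOn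
    (f := fun z : Z => z 0) (by fun_prop)
  have hi := ((hI 0 φ hφ hφs).norm).const_mul M
  refine Integrable.mono' hi ?_ ?_
  · apply Measurable.aestronglyMeasurable
    have := hφ.measurable
    fun_prop
  · filter_upwards [ae_ne 0, ae_ne 1] with z hz0 hz1
    rw [Real.norm_of_nonneg (by positivity), norm_div, Real.norm_eq_abs, zero_mul,
      zero_pow two_ne_zero, sub_zero, norm_norm, norm_mul]
    by_cases hz : z ∈ tsupport φ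
    · have h1 := hM z hz
      have h2 : 0 < ‖z 0‖ := norm_pos_iff.2 hz0
      have h3 : 0 < ‖z 1‖ := norm_pos_iff.2 hz1
      have h4 : |φ z| * (1 / ‖z 1‖) = ‖z 0‖ * (|φ z| / (‖z 0‖ * ‖z 1‖)) := by
        field_simp
      rw [h4]
      exact mul_le_mul_of_nonneg_right h1 (by positivity)
    · rw [image_eq_zero_of_notMem_tsupport hz]
      simp

theorem stmtD2 (hA : G_D2a) (hI : G_INT5) (hG : G_GAUSS) : G_D2 := by
  intro κ N₁ N₂ C hN₁ hN₂ hC χ hχ hχs hχ01 hχ1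
  obtain ⟨ε, hε, hχε⟩ := Metric.eventually_nhds_iff.1 hχ1
  obtain ⟨r, hr, hr2⟩ := hA κ N₁ N₂ C hN₁ hN₂ hC (ε / 2) (by positivity)
  refine ⟨r, hr, fun φ hφ hφs hφr => ⟨hI κ φ hφ.continuous hφs, ?_⟩⟩
  obtain ⟨K, hK⟩ := hr2 φ hφ hφs hφr
  have h1 : Continuous N₁ := hN₁.1.continuous
  have h2 : Continuous N₂ := hN₂.1.continuous
  have h3 : Continuous C := hC.1.continuous
  have hφc := hφ.continuous
  have hφi : Integrable φ := hφc.integrable_of_hasCompactSupport hφs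
  have hi5 := hI κ φ hφc hφs
  have hi1 := int_z1 hI φ hφc hφs
  refine ⟨|K| * (1 / (ε / 2) + 1) ^ 8 * (∫ x, HH x) ^ 2, fun σ hσ1 => ?_⟩
  have hσpos : 0 < ‖σ‖ := by linarith
  have hσ : σ ≠ 0 := norm_pos_iff.1 hσpos
  set ε₀ := ε / 2 with hε₀d
  have hε₀ : 0 < ε₀ := by positivity
  have hKU : ∀ w : ℂ × ℂ, ε₀ ≤ max ‖w.1‖ ‖w.2‖ →
      ‖U κ N₁ N₂ C σ φ w‖ ≤ (|K| / ‖σ‖ ^ 4) / (max ‖w.1‖ ‖w.2‖) ^ 8 := by
    intro w hw
    refine (hK σ w.1 w.2 hσ1 hw).trans ?_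
    rw [div_div]
    exact div_le_div_of_nonneg_right (le_abs_self K) (by positivity)
  have hχ1' : ∀ y, ‖y‖ ≤ ε₀ → χ y = 1 := by
    intro y hy
    apply hχε
    rw [dist_zero_right]
    linarith
  set A : ℂ := ∫ x : ℂ, ∫ y : ℂ, ∫ z : Z, Ph κ N₁ N₂ C σ x y z * ((χ x * χ y * φ z : ℝ) : ℂ)
    with hAd
  set c₁ := ε₀ ^ 2 * (∫ z, |φ z|) * (1 + ε₀) ^ 8 with hc₁
  set c₂ := |K| / ‖σ‖ ^ 4 * (1 / ε₀ + 1) ^ 8 with hc₂
  have hbd : ∀ a b : ℝ, 0 < a → 0 < b → ‖A - ∫ z, (φ z : ℂ) * Q κ N₁ N₂ C σ a b z‖ ≤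
      ((a + b) * c₁ + c₂) * (∫ x, HH x) ^ 2 := by
    intro a b ha hb
    exact A_bound hG κ h1 h2 h3 σ a b ha hb φ hφc hφi χ hχ.continuous hχs hχ01 ε₀ hε₀ hχ1' _
      (by positivity) hKU
  have hz1ne := ae_ne 1
  have hdet := ae_det κ
  -- first limit
  have hB : ∀ a : ℝ, 0 < a → Tendsto (fun b => ∫ z, (φ z : ℂ) * Q κ N₁ N₂ C σ a b z) (𝓝[>] 0)
      (𝓝 (∫ z, (φ z : ℂ) * R κ N₁ N₂ C σ a z)) := by
    intro a ha
    apply tendsto_integral_filter_of_dominated_convergence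
      (bound := fun z => ((∫ x, EE a x) * (Real.pi / ‖σ‖)) * (|φ z| * (1 / ‖z 1‖)))
    · apply Eventually.of_forall
      intro b
      exact ((Complex.continuous_ofReal.comp hφc).stronglyMeasurable.mul
        (Q_meas κ h1 h2 h3 σ a b)).aestronglyMeasurable
    · filter_upwards [self_mem_nhdsWithin] with b hb
      filter_upwards [hz1ne] with z hz
      rw [norm_mul, Complex.norm_real, Real.norm_eq_abs]
      have h4 := Q_bound hG κ N₁ N₂ C σ a b ha hb z (mul_ne_zero hσ hz)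
      calc |φ z| * ‖Q κ N₁ N₂ C σ a b z‖ ≤ |φ z| * ((∫ x, EE a x) * (Real.pi / ‖σ * z 1‖)) :=
            mul_le_mul_of_nonneg_left h4 (abs_nonneg _)
        _ = _ := by
            rw [norm_mul]
            have : ‖σ‖ ≠ 0 := hσpos.ne'
            have : ‖z 1‖ ≠ 0 := norm_ne_zero_iff.2 hz
            field_simp
    · exact hi1.const_mul _
    · filter_upwards [hz1ne] with z hz
      exact (Q_lim hG κ N₁ N₂ C σ a ha z (mul_ne_zero hσ hz)).const_mul _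
  have hBm : ∀ a : ℝ, 0 < a →
      AEStronglyMeasurable (fun z => (φ z : ℂ) * R κ N₁ N₂ C σ a z) volume := by
    intro a ha
    apply aestronglyMeasurable_of_tendsto_ae (𝓝[>] (0 : ℝ))
      (f := fun b z => (φ z : ℂ) * Q κ N₁ N₂ C σ a b z)
    · intro b
      exact ((Complex.continuous_ofReal.comp hφc).stronglyMeasurable.mul
        (Q_meas κ h1 h2 h3 σ a b)).aestronglyMeasurable
    · filter_upwards [hz1ne] with z hz
      exact (Q_lim hG κ N₁ N₂ C σ a ha z (mul_ne_zero hσ hz)).const_mul _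
  -- second limit
  have hB2 : Tendsto (fun a => ∫ z, (φ z : ℂ) * R κ N₁ N₂ C σ a z) (𝓝[>] 0)
      (𝓝 (∫ z, (φ z : ℂ) * ((Real.pi ^ 2 / ‖σ‖ ^ 2 : ℝ) *
        (cexp (I * ((σ * hh5 κ N₁ N₂ C z).re : ℂ)) *
        (1 / ‖z 0 * z 1 - (κ * z 2) ^ 2‖ : ℝ))))) := by
    apply tendsto_integral_filter_of_dominated_convergence
      (bound := fun z => (Real.pi ^ 2 / ‖σ‖ ^ 2) * ‖φ z / ‖z 0 * z 1 - (κ * z 2) ^ 2‖‖)
    · filter_upwards [self_mem_nhdsWithin] with a ha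
      exact hBm a ha
    · filter_upwards [self_mem_nhdsWithin] with a ha
      filter_upwards [hz1ne, hdet] with z hz hd
      rw [norm_mul, Complex.norm_real, norm_div, norm_norm]
      calc ‖φ z‖ * ‖R κ N₁ N₂ C σ a z‖ ≤ ‖φ z‖ *
            (Real.pi ^ 2 / ‖σ‖ ^ 2 * (1 / ‖z 0 * z 1 - (κ * z 2) ^ 2‖)) :=
            mul_le_mul_of_nonneg_left (R_bound hG κ N₁ N₂ C σ a ha z hσ hz hd) (norm_nonneg _)
        _ = _ := by ring
    · exact hi5.norm.const_mul _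
    · filter_upwards [hz1ne, hdet] with z hz hd
      exact (R_lim hG κ N₁ N₂ C σ z hσ hz hd).const_mul _
  have hfin : (∫ z, (φ z : ℂ) * ((Real.pi ^ 2 / ‖σ‖ ^ 2 : ℝ) *
        (cexp (I * ((σ * hh5 κ N₁ N₂ C z).re : ℂ)) *
        (1 / ‖z 0 * z 1 - (κ * z 2) ^ 2‖ : ℝ)))) =
      (Real.pi ^ 2 / ‖σ‖ ^ 2 : ℝ) * ∫ z, cexp (I * ((σ * hh5 κ N₁ N₂ C z).re : ℂ)) *
        (φ z / ‖z 0 * z 1 - (κ * z 2) ^ 2‖ : ℝ) := by
    rw [← integral_const_mul]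
    apply integral_congr_ae
    filter_upwards with z
    push_cast
    ring
  rw [hfin] at hB2
  -- estimates
  have hest : ∀ a : ℝ, 0 < a → ‖A - ∫ z, (φ z : ℂ) * R κ N₁ N₂ C σ a z‖ ≤
      ((a + 0) * c₁ + c₂) * (∫ x, HH x) ^ 2 := by
    intro a ha
    have t1 : Tendsto (fun b => ‖A - ∫ z, (φ z : ℂ) * Q κ N₁ N₂ C σ a b z‖) (𝓝[>] 0)
        (𝓝 ‖A - ∫ z, (φ z : ℂ) * R κ N₁ N₂ C σ a z‖) := (tendsto_const_nhds.sub (hB a ha)).norm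
    have t2 : Tendsto (fun b : ℝ => ((a + b) * c₁ + c₂) * (∫ x, HH x) ^ 2) (𝓝[>] 0)
        (𝓝 (((a + 0) * c₁ + c₂) * (∫ x, HH x) ^ 2)) := by
      have : Continuous (fun b : ℝ => ((a + b) * c₁ + c₂) * (∫ x, HH x) ^ 2) := by fun_prop
      exact (this.tendsto 0).mono_left nhdsWithin_le_nhds
    apply le_of_tendsto_of_tendsto t1 t2
    filter_upwards [self_mem_nhdsWithin] with b hb
    exact hbd a b ha hb
  have hest2 : ‖A - (Real.pi ^ 2 / ‖σ‖ ^ 2 : ℝ) *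
      ∫ z, cexp (I * ((σ * hh5 κ N₁ N₂ C z).re : ℂ)) *
        (φ z / ‖z 0 * z 1 - (κ * z 2) ^ 2‖ : ℝ)‖ ≤
      ((0 + 0) * c₁ + c₂) * (∫ x, HH x) ^ 2 := by
    have t1 : Tendsto (fun a => ‖A - ∫ z, (φ z : ℂ) * R κ N₁ N₂ C σ a z‖) (𝓝[>] 0)
        (𝓝 ‖A - (Real.pi ^ 2 / ‖σ‖ ^ 2 : ℝ) *
      ∫ z, cexp (I * ((σ * hh5 κ N₁ N₂ C z).re : ℂ)) *
        (φ z / ‖z 0 * z 1 - (κ * z 2) ^ 2‖ : ℝ)‖) := (tendsto_const_nhds.sub hB2).norm
    have t2 : Tendsto (fun a : ℝ => ((a + 0) * c₁ + c₂) * (∫ x, HH x) ^ 2) (𝓝[>] 0)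
        (𝓝 (((0 + 0) * c₁ + c₂) * (∫ x, HH x) ^ 2)) := by
      have : Continuous (fun a : ℝ => ((a + 0) * c₁ + c₂) * (∫ x, HH x) ^ 2) := by fun_prop
      exact (this.tendsto 0).mono_left nhdsWithin_le_nhds
    apply le_of_tendsto_of_tendsto t1 t2
    filter_upwards [self_mem_nhdsWithin] with a ha
    exact hest a ha
  refine hest2.trans (le_of_eq ?_)
  rw [hc₂]
  ring

end Pool.Agent.Helper8.CF
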