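import Mathlib
import Pool.Agent.Helper45.CF.GoalsB

/-!
Packet CF-NSUP (MP_d97caa_an): the norm of a section is the supremum of the norms of its values.
-/

set_option autoImplicit false

open scoped ComplexOrder

namespace Pool.Agent.Helper8.CF

open Pool.Agent.Helper45.CF

theorem t : S_NSUP := by
  intro X A L _ _ _ _ ζ π hπ a M hM h
  set b : A := star a * a with hb
  have hbs : IsSelfAdjoint b := IsSelfAdjoint.star_mul_self a
  set f : ℝ → ℝ := fun t => max 0 (t - M ^ 2) with hf
  have hfc : Continuous f := by fun_prop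
  -- the function of `b` vanishes at every point
  have h0 : cfc f b = 0 := by
    apply hπ.faithful
    intro x
    have hcont : Continuous (π x) := AddMonoidHomClass.continuous_of_bound (π x) 1 (fun y => by rw [one_mul]; exact NonUnitalStarAlgHom.norm_apply_le (π x) y)
    have hbx : IsSelfAdjoint (π x b) := hbs.map (π x)
    have h1 : π x (cfc f b) = cfc f (π x b) :=
      StarAlgHomClass.map_cfc (π x) f b hfc.continuousOn hcont hbs hbx
    rw [h1]
    have h2 : cfc f (π x b) = cfc (fun _ : ℝ => (0 : ℝ)) (π x b) := by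
      apply cfc_congr
      intro s hs
      have h3 : ‖s‖ ≤ ‖π x b‖ := by
        rcases subsingleton_or_nontrivial L with hL | hL
        · rw [spectrum.of_subsingleton] at hs
          exact absurd hs (Set.notMem_empty s)
        · exact spectrum.norm_le_norm_of_mem hs
      have h4 : ‖π x b‖ = ‖π x a‖ ^ 2 := by
        rw [hb, map_mul, map_star, CStarRing.norm_star_mul_self, sq]
      have h5 : ‖π x a‖ ^ 2 ≤ M ^ 2 := pow_le_pow_left₀ (norm_nonneg _) (h x) 2
      have h6 : s ≤ ‖s‖ := Real.le_norm_self s
      exact max_eq_left (by linarith)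
    rw [h2, cfc_const_zero]
  have h7 : ∀ s ∈ spectrum ℝ b, s ≤ M ^ 2 := by
    intro s hs
    rcases subsingleton_or_nontrivial A with hA | hA
    · rw [spectrum.of_subsingleton] at hs
      exact absurd hs (Set.notMem_empty s)
    have h8 : spectrum ℝ (cfc f b) = f '' spectrum ℝ b := cfc_map_spectrum f b hbs hfc.continuousOn
    rw [h0, spectrum.zero_eq] at h8
    have h9 : f s ∈ ({0} : Set ℝ) := h8 ▸ Set.mem_image_of_mem f hs
    have h10 : f s = 0 := h9
    have h11 : s - M ^ 2 ≤ f s := le_max_right _ _
    linarith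
  have h12 : ‖b‖ ≤ M ^ 2 := by
    have h13 : ‖cfc (id : ℝ → ℝ) b‖ ≤ M ^ 2 := by
      apply norm_cfc_le (by positivity)
      intro s hs
      have h14 : 0 ≤ s := spectrum_star_mul_self_nonneg s hs
      rw [id, Real.norm_of_nonneg h14]
      exact h7 s hs
    rwa [cfc_id ℝ b hbs] at h13
  have h15 : ‖a‖ ^ 2 ≤ M ^ 2 := by
    rw [hb, CStarRing.norm_star_mul_self, ← sq] at h12
    exact h12
  exact (sq_le_sq₀ (norm_nonneg a) hM).1 h15

end Pool.Agent.Helper8.CF
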